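import Pool.Agent.Run7.h135.XK.Stm

/-!
# Project XK (helper135), piece CAD: the cocycles of pairs
-/

set_option autoImplicit false

namespace Run7.h376.XK

open WeierstrassCurve
open Pool.Agent.TH841.SH.D (Pt act Gal Coch IsCoc IsCob LocTriv cob)
open Pool.Agent.TH841.SH (IsR)
open Run7.h135.XK

section

variable {k : Type} [Field k]

theorem lc_apply (x : AlgebraicClosure k) : IsLocallyConstant (fun σ : Gal k => σ x) := by
  rw [IsLocallyConstant.iff_exists_open]
  intro σ
  have hx : IsIntegral k x := Algebra.IsIntegral.isIntegral x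
  have : FiniteDimensional k (IntermediateField.adjoin k {x}) :=
    IntermediateField.adjoin.finiteDimensional hx
  refine ⟨(fun τ => σ⁻¹ * τ) ⁻¹'
    ((IntermediateField.adjoin k {x}).fixingSubgroup : Set (AlgebraicClosure k ≃ₐ[k] AlgebraicClosure k)),
    (IntermediateField.fixingSubgroup_isOpen _).preimage (continuous_const_mul _), ?_, ?_⟩
  · show σ⁻¹ * σ ∈ (IntermediateField.adjoin k {x}).fixingSubgroup
    rw [inv_mul_cancel]
    exact one_mem _
  · intro τ hτ
    have h1 : σ⁻¹ * τ ∈ (IntermediateField.adjoin k {x}).fixingSubgroup := hτ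
    rw [IntermediateField.mem_fixingSubgroup_iff] at h1
    have h2 := h1 x (IntermediateField.mem_adjoin_simple_self k x)
    rw [AlgEquiv.mul_apply] at h2
    have h3 := congrArg σ h2
    rw [← AlgEquiv.mul_apply, mul_inv_cancel, AlgEquiv.one_apply] at h3
    exact h3

theorem ex_root (a : k) : ∃ s : AlgebraicClosure k, s ^ 2 = algebraMap k (AlgebraicClosure k) a :=
  IsAlgClosed.exists_pow_nat_eq _ two_pos

theorem ap_sq {a : k} {s : AlgebraicClosure k} (hs : s ^ 2 = algebraMap k (AlgebraicClosure k) a) (σ : Gal k) :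
    σ s = s ∨ σ s = -s := by
  apply sq_eq_sq_iff_eq_or_eq_neg.1
  rw [← map_pow, hs]
  exact σ.commutes a

theorem fl_iff {a : k} {s : AlgebraicClosure k} (hs : s ^ 2 = algebraMap k (AlgebraicClosure k) a) (σ : Gal k) :
    Fl a σ ↔ σ s ≠ s := by
  constructor
  · rintro ⟨t, h2, h3⟩ h1
    apply h3
    rw [← hs] at h2
    rcases sq_eq_sq_iff_eq_or_eq_neg.1 h2 with rfl | rfl
    · exact h1
    · rw [map_neg, h1]
  · intro h
    exact ⟨s, hs, h⟩

theorem root_ne {a : k} (ha : a ≠ 0) {s : AlgebraicClosure k} (hs : s ^ 2 = algebraMap k (AlgebraicClosure k) a) :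
    s ≠ 0 := by
  rintro rfl
  apply ha
  apply (algebraMap k (AlgebraicClosure k)).injective
  rw [map_zero, ← hs]
  ring

theorem fl_lc (a : k) : IsLocallyConstant (fun σ : Gal k => Fl a σ) := by
  obtain ⟨s, hs⟩ := ex_root a
  have h1 : (fun σ : Gal k => Fl a σ) = (fun x : AlgebraicClosure k => x ≠ s) ∘ (fun σ : Gal k => σ s) := by
    funext σ
    exact propext (fl_iff hs σ)
  rw [h1]
  exact (lc_apply s).comp _

theorem fl_sq (a : k) {c : k} (hc : c ≠ 0) (σ : Gal k) : Fl (a * c ^ 2) σ ↔ Fl a σ := by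
  obtain ⟨s, hs⟩ := ex_root a
  have hc' : algebraMap k (AlgebraicClosure k) c ≠ 0 := by
    intro h
    apply hc
    apply (algebraMap k (AlgebraicClosure k)).injective
    rw [h, map_zero]
  have hs' : (s * algebraMap k (AlgebraicClosure k) c) ^ 2 = algebraMap k (AlgebraicClosure k) (a * c ^ 2) := by
    rw [mul_pow, hs, map_mul, map_pow]
  rw [fl_iff hs, fl_iff hs', map_mul]
  have h1 : σ (algebraMap k (AlgebraicClosure k) c) = algebraMap k (AlgebraicClosure k) c := σ.commutes c
  rw [h1, ne_eq, ne_eq, mul_left_inj' hc']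

variable [CharZero k]

theorem neg_ne' {s : AlgebraicClosure k} (h : s ≠ 0) : -s ≠ s := by
  have : CharZero (AlgebraicClosure k) := charZero_of_injective_algebraMap (algebraMap k (AlgebraicClosure k)).injective
  intro h1
  apply h
  have h2 : (2 : AlgebraicClosure k) * s = 0 := by linear_combination -h1
  exact (mul_eq_zero.1 h2).resolve_left two_ne_zero

theorem fl_mul {a a' : k} (ha : a ≠ 0) (ha' : a' ≠ 0) (σ : Gal k) : Fl (a * a') σ ↔ ¬ (Fl a σ ↔ Fl a' σ) := by
  obtain ⟨s, hs⟩ := ex_root a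
  obtain ⟨t, ht⟩ := ex_root a'
  have hst : (s * t) ^ 2 = algebraMap k (AlgebraicClosure k) (a * a') := by
    rw [mul_pow, hs, ht, map_mul]
  have h1 := neg_ne' (root_ne ha hs)
  have h2 := neg_ne' (root_ne ha' ht)
  have h3 := neg_ne' (root_ne (mul_ne_zero ha ha') hst)
  rw [fl_iff hs, fl_iff ht, fl_iff hst, map_mul]
  rcases ap_sq hs σ with e1 | e1 <;> rcases ap_sq ht σ with e2 | e2 <;> rw [e1, e2]
  · simp
  · rw [mul_neg]
    simp [h2, h3]
  · rw [neg_mul]
    simp [h1, h3]
  · rw [neg_mul_neg]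
    simp [h1, h2]

theorem fl_comp {a : k} (ha : a ≠ 0) (σ τ : Gal k) : Fl a (σ * τ) ↔ ¬ (Fl a σ ↔ Fl a τ) := by
  obtain ⟨s, hs⟩ := ex_root a
  have h1 := neg_ne' (root_ne ha hs)
  rw [fl_iff hs, fl_iff hs, fl_iff hs, AlgEquiv.mul_apply]
  rcases ap_sq hs τ with e2 | e2 <;> rcases ap_sq hs σ with e1 | e1 <;> rw [e2]
  · rw [e1]
    simp
  · rw [e1]
    simp [h1]
  · rw [map_neg, e1]
    simp [h1]
  · rw [map_neg, e1, neg_neg]
    simp [h1]

end

section

variable {k : Type} [Field k] {W : WeierstrassCurve k} {e0 e1 e2 : k}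

theorem tp_pos {L : Type} [Field L] [Algebra k L] {e : k}
    (h : (W.baseChange L).toAffine.Nonsingular (algebraMap k L e) 0) :
    tp W L e = (Affine.Point.some _ _ h : Pt W L) := dif_pos h

theorem tp_neg {L : Type} [Field L] [Algebra k L] {e : k}
    (h : ¬ (W.baseChange L).toAffine.Nonsingular (algebraMap k L e) 0) : tp W L e = 0 := dif_neg h

theorem tp_add (hR : IsR W e0 e1 e2) (L : Type) [Field L] [Algebra k L] (e : k) : tp W L e + tp W L e = 0 := by
  by_cases h : (W.baseChange L).toAffine.Nonsingular (algebraMap k L e) 0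
  · rw [tp_pos h]
    refine @Affine.Point.add_of_Y_eq L _ (W.baseChange L).toAffine (Classical.decEq L)
      _ _ 0 0 h h rfl ?_
    have h1 : (W.baseChange L).toAffine.a₁ = 0 := by
      show algebraMap k L W.a₁ = 0
      rw [hR.h1, map_zero]
    have h3 : (W.baseChange L).toAffine.a₃ = 0 := by
      show algebraMap k L W.a₃ = 0
      rw [hR.h3, map_zero]
    rw [Affine.negY, h1, h3]
    ring
  · rw [tp_neg h, add_zero]

theorem act_tp (W : WeierstrassCurve k) (e : k) (σ : Gal k) :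
    act W σ.toAlgHom (tp W (AlgebraicClosure k) e) = tp W (AlgebraicClosure k) e := by
  by_cases h : (W.baseChange (AlgebraicClosure k)).toAffine.Nonsingular (algebraMap k (AlgebraicClosure k) e) 0
  · rw [tp_pos h]
    have h1 : act W σ.toAlgHom (Affine.Point.some _ _ h : Pt W (AlgebraicClosure k)) =
        (Affine.Point.some (σ (algebraMap k (AlgebraicClosure k) e)) (σ 0)
        ((Affine.baseChange_nonsingular W σ.toAlgHom.injective ..).mpr h) : Pt W (AlgebraicClosure k)) := rfl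
    rw [h1]
    congr 1
    · exact σ.commutes e
    · exact map_zero σ
  · rw [tp_neg h, map_zero]

end

open Classical in
/-- `T` if `σ` moves the roots of `a` -/
noncomputable def pt {k : Type} [Field k] (a : k) (σ : Gal k) {A : Type} [AddCommGroup A] (T : A) : A :=
  if Fl a σ then T else 0

section

variable {k : Type} [Field k] {A : Type} [AddCommGroup A]

theorem pt_pos {a : k} {σ : Gal k} (h : Fl a σ) (T : A) : pt a σ T = T := if_pos h

theorem pt_neg {a : k} {σ : Gal k} (h : ¬ Fl a σ) (T : A) : pt a σ T = 0 := if_neg h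

theorem pt_two (a : k) (σ : Gal k) {T : A} (hT : T + T = 0) : pt a σ T + pt a σ T = 0 := by
  by_cases h : Fl a σ
  · rw [pt_pos h, hT]
  · rw [pt_neg h, add_zero]

theorem pt_xor {a b c : k} {σ τ ρ : Gal k} (h : Fl c ρ ↔ ¬ (Fl a σ ↔ Fl b τ)) {T : A} (hT : T + T = 0) :
    pt c ρ T = pt a σ T + pt b τ T := by
  by_cases h1 : Fl a σ <;> by_cases h2 : Fl b τ
  · rw [pt_pos h1, pt_pos h2, pt_neg (by simp [h, h1, h2]), hT]
  · rw [pt_pos h1, pt_neg h2, pt_pos (by simp [h, h1, h2]), add_zero]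
  · rw [pt_neg h1, pt_pos h2, pt_pos (by simp [h, h1, h2]), zero_add]
  · rw [pt_neg h1, pt_neg h2, pt_neg (by simp [h, h1, h2]), zero_add]

theorem pt_lc (a : k) (T : A) : IsLocallyConstant (fun σ : Gal k => pt a σ T) := by
  classical
  have h := (fl_lc a).comp (fun p : Prop => if p then T else 0)
  have e : (fun σ : Gal k => pt a σ T) = (fun p : Prop => if p then T else 0) ∘ (fun σ : Gal k => Fl a σ) := by
    funext σ
    by_cases h1 : Fl a σ
    · rw [pt_pos h1]
      simp [h1]
    · rw [pt_neg h1]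
      simp [h1]
  rw [e]
  exact h

theorem pt_map {B : Type} [AddCommGroup B] (f : A →+ B) (a : k) (σ : Gal k) (T : A) : f (pt a σ T) = pt a σ (f T) := by
  by_cases h : Fl a σ
  · rw [pt_pos h, pt_pos h]
  · rw [pt_neg h, pt_neg h, map_zero]

end

theorem Cc_apply {k : Type} [Field k] (W : WeierstrassCurve k) (e0 e1 a b : k) (σ : Gal k) :
    Cc W e0 e1 a b σ = pt a σ (tp W (AlgebraicClosure k) e1) + pt b σ (tp W (AlgebraicClosure k) e0) := rfl

theorem t_CAD : S_CAD := by
  intro k _ _ W e0 e1 e2 hR _ _ _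
  have T0 := tp_add hR (AlgebraicClosure k) e0
  have T1 := tp_add hR (AlgebraicClosure k) e1
  refine ⟨fun a b ha hb => ⟨⟨?_, ?_⟩, ?_⟩, fun a b a' b' ha hb ha' hb' => ?_, fun a b c d ha hb hc hd => ?_⟩
  · exact (pt_lc a (tp W (AlgebraicClosure k) e1)).add (pt_lc b (tp W (AlgebraicClosure k) e0))
  · intro σ τ
    rw [Cc_apply, Cc_apply, Cc_apply, map_add, pt_map, pt_map, act_tp, act_tp, pt_xor (fl_comp ha σ τ) T1,
      pt_xor (fl_comp hb σ τ) T0]
    abel
  · funext σ
    show Cc W e0 e1 a b σ + Cc W e0 e1 a b σ = 0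
    rw [Cc_apply]
    have h1 := pt_two a σ T1
    have h2 := pt_two b σ T0
    calc _ = (pt a σ (tp W (AlgebraicClosure k) e1) + pt a σ (tp W (AlgebraicClosure k) e1)) +
        (pt b σ (tp W (AlgebraicClosure k) e0) + pt b σ (tp W (AlgebraicClosure k) e0)) := by abel
      _ = 0 := by rw [h1, h2, add_zero]
  · funext σ
    show Cc W e0 e1 (a * a') (b * b') σ = Cc W e0 e1 a b σ + Cc W e0 e1 a' b' σ
    rw [Cc_apply, Cc_apply, Cc_apply, pt_xor (fl_mul ha ha' σ) T1, pt_xor (fl_mul hb hb' σ) T0]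
    abel
  · funext σ
    rw [Cc_apply, Cc_apply]
    unfold pt
    rw [fl_sq a hc σ, fl_sq b hd σ]

end Run7.h376.XK
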