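import Pool.Agent.Run7.h135.XK.Stm

/-!
# Project XK (helper135), piece HN: Hilbert 90 and norms
-/

set_option autoImplicit false

namespace Run7.h376.XK

open Run7.h135.XK

/-- descent: `5 (x² + n y²) = z²` has only the trivial solution for `n = 2, 3 mod 5` -/
theorem descent {n : ℤ} (hn : n % 5 = 2 ∨ n % 5 = 3) :
    ∀ m : ℕ, ∀ x y z : ℤ, x.natAbs + y.natAbs ≤ m → 5 * (x ^ 2 + n * y ^ 2) = z ^ 2 → x = 0 ∧ y = 0 := by
  intro m
  induction m using Nat.strong_induction_on with
  | _ m ih =>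
    intro x y z hm h
    have h5 : Prime (5 : ℤ) := by norm_num
    have hz : (5 : ℤ) ∣ z := h5.dvd_of_dvd_pow (⟨_, h.symm⟩ : (5 : ℤ) ∣ z ^ 2)
    obtain ⟨w, rfl⟩ := hz
    have h1 : x ^ 2 + n * y ^ 2 = 5 * w ^ 2 := by
      have : 5 * (x ^ 2 + n * y ^ 2) = 5 * (5 * w ^ 2) := by rw [h]; ring
      linarith
    have key : x % 5 = 0 ∧ y % 5 = 0 := by
      have h2 : (x ^ 2 + n * y ^ 2) % 5 = 0 := by rw [h1]; omega
      have hx : x % 5 = 0 ∨ x % 5 = 1 ∨ x % 5 = 2 ∨ x % 5 = 3 ∨ x % 5 = 4 := by omega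
      have hy : y % 5 = 0 ∨ y % 5 = 1 ∨ y % 5 = 2 ∨ y % 5 = 3 ∨ y % 5 = 4 := by omega
      rcases hn with hn | hn <;> rcases hx with hx | hx | hx | hx | hx <;>
        rcases hy with hy | hy | hy | hy | hy <;>
        simp [pow_two, Int.add_emod, Int.mul_emod, hn, hx, hy] at h2 ⊢
    obtain ⟨x', rfl⟩ := Int.dvd_of_emod_eq_zero key.1
    obtain ⟨y', rfl⟩ := Int.dvd_of_emod_eq_zero key.2
    by_cases h0 : x' = 0 ∧ y' = 0
    · rw [h0.1, h0.2]
      simp
    · have h3 : 5 * (x' ^ 2 + n * y' ^ 2) = w ^ 2 := by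
        have : 5 * (5 * (x' ^ 2 + n * y' ^ 2)) = 5 * w ^ 2 := by rw [← h1]; ring
        linarith
      have h4 := ih (x'.natAbs + y'.natAbs) (by omega) x' y' w le_rfl h3
      exact absurd h4 h0

theorem mod5 {n : ℕ} (h : n % 60 = 23 ∨ n % 60 = 47) : ((n : ℤ)) % 5 = 2 ∨ ((n : ℤ)) % 5 = 3 := by
  omega

theorem t_HN : S_HN := by
  intro n hn
  have hn0 : (n : ℚ) ≠ 0 := by
    have := hn.1.ne_zero
    exact_mod_cast this
  constructor
  · intro K _ _ r hQ u v h0 hsq
    obtain ⟨c, hc⟩ := hsq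
    by_cases hv : v = 0
    · subst hv
      refine ⟨u, 1, ?_, one_ne_zero, by simp⟩
      rintro rfl
      simp at h0
    · have huc : u + c ≠ 0 := by
        intro h1
        have h2 : (n : ℚ) * v ^ 2 = 0 := by
          have : (n : ℚ) * v ^ 2 = (c - u) * (u + c) := by linear_combination hc
          rw [this, h1, mul_zero]
        exact (mul_ne_zero hn0 (pow_ne_zero 2 hv)) h2
      have huc' : ((u : K) + c) ≠ 0 := by
        have : ((u + c : ℚ) : K) ≠ 0 := by exact_mod_cast huc
        simpa using this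
      have e1 : ((u : K) + v * r + c) ^ 2 = 2 * (u + c) * ((u : K) + v * r) := by
        have hcK : (u : K) ^ 2 + n * (v : K) ^ 2 = c * c := by exact_mod_cast congrArg (fun q : ℚ => (q : K)) hc
        have hr := hQ.sq
        linear_combination (v : K) ^ 2 * hr - hcK
      refine ⟨1 / (2 * (u + c)), u + v * r + c, ?_, ?_, ?_⟩
      · exact one_div_ne_zero (mul_ne_zero two_ne_zero huc)
      · intro h1
        rw [h1] at e1
        have h2 : (2 : K) * (u + c) * ((u : K) + v * r) ≠ 0 :=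
          mul_ne_zero (mul_ne_zero two_ne_zero huc') h0
        apply h2
        rw [← e1]
        ring
      · rw [e1]
        push_cast
        field_simp
  · intro u v h0
    constructor
    · rintro ⟨s, hs⟩
      have hp := mod5 hn.2
      obtain ⟨d, hd⟩ : ∃ d : ℤ, d = u.den * v.den * s.den := ⟨_, rfl⟩
      have hu : (u.den : ℚ) ≠ 0 := by exact_mod_cast u.den_nz
      have hv : (v.den : ℚ) ≠ 0 := by exact_mod_cast v.den_nz
      have hs0 : (s.den : ℚ) ≠ 0 := by exact_mod_cast s.den_nz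
      have h1 : (5 : ℤ) * ((u.num * v.den * s.den) ^ 2 + n * (v.num * u.den * s.den) ^ 2) =
          (s.num * u.den * v.den) ^ 2 := by
        have e : (5 : ℚ) * ((u.num * v.den * s.den) ^ 2 + n * (v.num * u.den * s.den) ^ 2) =
          (s.num * u.den * v.den) ^ 2 := by
          have eu : (u.num : ℚ) = u * u.den := (Rat.mul_den_eq_num u).symm
          have ev : (v.num : ℚ) = v * v.den := (Rat.mul_den_eq_num v).symm
          have es : (s.num : ℚ) = s * s.den := (Rat.mul_den_eq_num s).symm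
          rw [eu, ev, es]
          linear_combination (u.den * v.den * s.den : ℚ) ^ 2 * hs
        exact_mod_cast e
      obtain ⟨h2, h3⟩ := descent hp _ _ _ _ le_rfl h1
      have hui : (u.den : ℤ) ≠ 0 := by exact_mod_cast u.den_nz
      have hvi : (v.den : ℤ) ≠ 0 := by exact_mod_cast v.den_nz
      have hsi : (s.den : ℤ) ≠ 0 := by exact_mod_cast s.den_nz
      have h4 : u.num = 0 := by
        rcases mul_eq_zero.1 h2 with h5 | h5
        · exact (mul_eq_zero.1 h5).resolve_right hvi
        · exact absurd h5 hsi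
      have h6 : v.num = 0 := by
        rcases mul_eq_zero.1 h3 with h5 | h5
        · exact (mul_eq_zero.1 h5).resolve_right hui
        · exact absurd h5 hsi
      rw [Rat.num_eq_zero] at h4 h6
      apply h0
      rw [h4, h6]
      ring
    · rintro ⟨s, hs⟩
      have h1 : 0 ≤ u ^ 2 + n * v ^ 2 := by positivity
      have h2 : 0 ≤ s * s := mul_self_nonneg s
      apply h0
      linarith

end Run7.h376.XK
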