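import Pool.Agent.Run7.h135.XK.Stm

/-!
# Project XK (helper135), piece LTG: the global 2-descent
-/

set_option autoImplicit false

namespace Run7.h376.XK

open WeierstrassCurve
open Pool.Agent.TH841.SH.D (Pt act Gal Coch IsCoc IsCob LocTriv cob)
open Pool.Agent.TH841.SH (IsR)
open Run7.h135.XK

theorem act_comp {k : Type} [Field k] (W : WeierstrassCurve k) {F L M : Type} [Field F] [Field L] [Field M]
    [Algebra k F] [Algebra k L] [Algebra k M] (φ : F →ₐ[k] L) (ψ : L →ₐ[k] M) (P : Pt W F) :
    act W ψ (act W φ P) = act W (ψ.comp φ) P := by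
  rcases P with _ | ⟨x, y, h⟩
  · rfl
  · rfl

theorem act_id' {k : Type} [Field k] (W : WeierstrassCurve k) {F : Type} [Field F] [Algebra k F] (P : Pt W F) :
    act W (AlgHom.id k F) P = P := by
  rcases P with _ | ⟨x, y, h⟩
  · rfl
  · rfl

/-- coboundaries are the locally trivial functions over the field itself -/
theorem loc_iff {k : Type} [Field k] (W : WeierstrassCurve k) (f : Coch W) : LocTriv W k f ↔ IsCob W f := by
  constructor
  · intro h
    obtain ⟨P, hP⟩ := h (AlgHom.id k (AlgebraicClosure k))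
    refine ⟨P, fun σ => ?_⟩
    have := hP σ σ (fun x => rfl)
    rw [act_id'] at this
    exact this
  · rintro ⟨P, hP⟩ ι
    refine ⟨act W ι P, fun τ σ h => ?_⟩
    rw [hP σ, map_sub, act_comp, act_comp]
    have e : ι.comp σ.toAlgHom = (τ.toAlgHom.restrictScalars k).comp ι := by
      ext x
      exact (h x).symm
    rw [e]

theorem t_LTG : S_LTA → S_LTB → S_LTG := by
  intro hA hB k _ _ W e0 e1 e2 hR h01 h02 h12 a b ha hb
  rw [← loc_iff]
  constructor
  · intro h
    exact hB k W e0 e1 e2 hR h01 h02 h12 a b ha hb k h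
  · intro h
    exact hA k W e0 e1 e2 hR h01 h02 h12 a b ha hb k h

end Run7.h376.XK
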